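import Mathlib

set_option autoImplicit false

namespace Pool.Agent.Results.MP_8a5df5_al.NoAction

open FreeAlgebra

/-- the generator `u i j` of the free algebra -/
abbrev u {n : ℕ} (i j : Fin n) : FreeAlgebra ℂ (Fin n × Fin n) := ι ℂ (i, j)

/-- relations of `O(H_n^+)`: orthogonal and cubic -/
inductive RelH (n : ℕ) : FreeAlgebra ℂ (Fin n × Fin n) → FreeAlgebra ℂ (Fin n × Fin n) → Prop
  | row (i j : Fin n) : RelH n (∑ k, u i k * u j k) (if i = j then 1 else 0)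
  | col (i j : Fin n) : RelH n (∑ k, u k i * u k j) (if i = j then 1 else 0)
  | cub (i j k : Fin n) : j ≠ k → RelH n (u i j * u i k) 0
  | cub' (i j k : Fin n) : j ≠ k → RelH n (u j i * u k i) 0

/-- relations of `O(G^+(X))`; `S_N^+` is the case of the empty graph -/
inductive RelG {N : ℕ} (X : SimpleGraph (Fin N)) [DecidableRel X.Adj] :
    FreeAlgebra ℂ (Fin N × Fin N) → FreeAlgebra ℂ (Fin N × Fin N) → Prop
  | proj (i j : Fin N) : RelG X (u i j * u i j) (u i j)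
  | row (i : Fin N) : RelG X (∑ k, u i k) 1
  | col (i : Fin N) : RelG X (∑ k, u k i) 1
  | adj (i j : Fin N) : RelG X (∑ k, X.adjMatrix ℂ k j • u i k) (∑ k, X.adjMatrix ℂ i k • u k j)

/-- the algebra `O(G^+(X))` -/
abbrev OG {N : ℕ} (X : SimpleGraph (Fin N)) [DecidableRel X.Adj] := RingQuot (RelG X)

/-- the algebra `O(S_N^+)` -/
abbrev OS (N : ℕ) := OG (⊥ : SimpleGraph (Fin N))

/-- the algebra `O(PH_n^+)`, inside `O(H_n^+)` -/
noncomputable def OPH (n : ℕ) : Subalgebra ℂ (RingQuot (RelH n)) :=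
  Algebra.adjoin ℂ {x | ∃ i j k l, x = RingQuot.mkAlgHom ℂ (RelH n) (u i j * u k l)}

abbrev K := RatFunc ℂ

noncomputable def g {n : ℕ} (i : Fin n) : Matrix (Fin 2) (Fin 2) K :=
  if i.val = 0 then !![0, 1; 1, 0] else !![0, RatFunc.X⁻¹; RatFunc.X, 0]

lemma gg {n : ℕ} (i : Fin n) : g i * g i = 1 := by
  unfold g
  split_ifs <;> ext a b <;> fin_cases a <;> fin_cases b <;> simp [RatFunc.X_ne_zero]

noncomputable def ρ (n : ℕ) : RingQuot (RelH n) →ₐ[ℂ] Matrix (Fin 2) (Fin 2) K :=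
  RingQuot.liftAlgHom ℂ ⟨lift ℂ fun x => if x.1 = x.2 then g x.1 else 0, by
    rintro _ _ (⟨i, j⟩ | ⟨i, j⟩ | ⟨i, j, k, h⟩ | ⟨i, j, k, h⟩)
    · by_cases h : i = j <;> simp [h, gg]
    · by_cases h : i = j <;> simp [h, gg, eq_comm]
    · by_cases h' : i = j <;> simp_all
    · by_cases h' : j = i <;> simp_all [eq_comm]⟩

lemma tri {n : ℕ} (x : RingQuot (RelH n)) (hx : x ∈ OPH n) : ρ n x 1 0 = 0 ∧ ρ n x 0 1 = 0 := by
  induction hx using Algebra.adjoin_induction with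
  | mem x hx =>
    obtain ⟨i, j, k, l, rfl⟩ := hx
    simp only [ρ, RingQuot.liftAlgHom_mkAlgHom_apply, map_mul, lift_ι_apply, g]
    split_ifs <;> simp
  | algebraMap r => simp [Matrix.algebraMap_matrix_apply]
  | add x y _ _ h1 h2 => simp [h1, h2]
  | mul x y _ _ h1 h2 => simp [Matrix.mul_apply, h1, h2]

lemma main {n N : ℕ} (hn : 2 ≤ n) (X : SimpleGraph (Fin N)) [DecidableRel X.Adj]
    (φ : OG X →ₐ[ℂ] OPH n) : ¬ Function.Surjective φ := by
  intro hs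
  have mul : ∀ x y : OPH n, ρ n (x * y : OPH n) 0 0 = ρ n x 0 0 * ρ n y 0 0 := fun x y => by
    simp [Matrix.mul_apply, tri x.1 x.2]
  have : ∀ a, ∃ c : ℂ, ρ n (φ (RingQuot.mkAlgHom ℂ _ a)) 0 0 = algebraMap ℂ K c := by
    intro a
    induction a using FreeAlgebra.induction with
    | grade0 r => exact ⟨r, by simp [Matrix.algebraMap_matrix_apply]⟩
    | grade1 x =>
      have := mul (φ (RingQuot.mkAlgHom ℂ _ (u x.1 x.2))) (φ (RingQuot.mkAlgHom ℂ _ (u x.1 x.2)))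
      rw [← map_mul, ← map_mul, RingQuot.mkAlgHom_rel ℂ (RelG.proj x.1 x.2)] at this
      rcases IsIdempotentElem.iff_eq_zero_or_one.1 this.symm with h | h
      · exact ⟨0, by simpa using h⟩
      · exact ⟨1, by simpa using h⟩
    | mul a b ha hb =>
      obtain ⟨c, hc⟩ := ha
      obtain ⟨d, hd⟩ := hb
      exact ⟨c * d, by rw [map_mul, map_mul, mul, hc, hd, map_mul]⟩
    | add a b ha hb =>
      obtain ⟨c, hc⟩ := ha
      obtain ⟨d, hd⟩ := hb
      exact ⟨c + d, by simp [hc, hd]⟩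
  obtain ⟨a, ha⟩ := hs ⟨_, Algebra.subset_adjoin ⟨⟨0, by omega⟩, ⟨0, by omega⟩, ⟨1, hn⟩, ⟨1, hn⟩, rfl⟩⟩
  obtain ⟨a, rfl⟩ := RingQuot.mkAlgHom_surjective ℂ _ a
  obtain ⟨c, hc⟩ := this a
  rw [ha] at hc
  simp [ρ, g] at hc
  have := congrArg RatFunc.intDegree hc
  simp at this

theorem result (n : ℕ) (hn : 2 ≤ n) (N : ℕ) :
    (∀ (X : SimpleGraph (Fin N)) [DecidableRel X.Adj], IsEmpty (OG X ≃ₐ[ℂ] OPH n)) ∧
    ∀ φ : OS N →ₐ[ℂ] OPH n, ¬ Function.Surjective φ :=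
  ⟨fun X _ => ⟨fun e => main hn X e e.surjective⟩, main hn _⟩

end Pool.Agent.Results.MP_8a5df5_al.NoAction
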